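import Mathlib
import Pool.Agent.K6.H79.CMDefs
import Pool.Agent.Q29.EP.Rows
import Pool.Agent.Q29.EP.AlmostDefs

/-!
# From CM types without relations to most CM types
-/

set_option autoImplicit false
set_option linter.unusedSectionVars false

namespace Pool.Agent.K6.H79

open NumberField Module Finset Pool.Agent.H204R3.CM Pool.Agent.H977R3.CM Pool.Agent.Q29.EP
  Pool.Agent.Q29.DP Pool.Agent.Q29.OS Pool.Agent.Y1.KN

/-- `Q` holds for all families of CM types without relations. -/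
def ForTypesWithoutRelations (Q : CMProperty) : Prop :=
  ∀ (I : Type) [hI : Fintype I] (K : I → Type) [hK : ∀ i, Field (K i)]
    [hN : ∀ i, NumberField (K i)] [hC : ∀ i, IsCMField (K i)] (Φ : ∀ i, Set (K i →+* ℂ)),
    PairwiseIndep K → (∀ i, IsCMType (Φ i)) → (∀ i, NoRelations (fun _ => 1) (Φ i)) →
    Q I hI K hK hN hC Φ

theorem weights_one {E : Type} [Field E] [NumberField E] {r k : ℕ} (hr : r.Prime)
    (hdeg : finrank ℚ E = 2 * r ^ k) (h8 : r = 2 → 8 ≤ r ^ k) :
    PrimePowerDegree (E := E) (fun _ => 1) := by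
  refine ⟨r, k, hr, hdeg, ?_, fun h => ⟨h8 h, fun _ => odd_one⟩⟩
  obtain ⟨φ⟩ : Nonempty (E →+* ℂ) := inferInstance
  refine ⟨φ, fun h => ?_⟩
  have h1 : (r : ℤ) = 1 := Int.eq_one_of_dvd_one (by positivity) h
  exact hr.one_lt.ne' (by exact_mod_cast h1)

section

variable {Q : CMProperty} (h : ForTypesWithoutRelations Q)

include h

theorem mostTypes : MostTypes Q := by
  intro I _ K _ _ _ r k hind hr hdeg h8
  refine le_trans ?_ (Nat.cast_le.2 (prod_le_fam (M := fun _ _ => 1)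
    fun Φ hΦ hno => h I K Φ hind hΦ hno))
  rw [Nat.cast_prod]
  calc (∏ i, (1 - 1 / (r i : ℝ))) * 2 ^ (∑ i, r i ^ k i) =
      ∏ i, (1 - 1 / (r i : ℝ)) * 2 ^ (r i ^ k i) := by
        rw [prod_mul_distrib, prod_pow_eq_pow_sum]
    _ ≤ _ := by
      refine prod_le_prod (fun i _ => ?_) fun i _ => proportion (hr i) (hdeg i) (h8 i)
      have h1 : (1 : ℝ) ≤ r i := by exact_mod_cast (hr i).one_lt.le
      have h2 : 1 / (r i : ℝ) ≤ 1 := by
        rw [div_le_one (by linarith)]
        exact h1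
      have h3 : (0 : ℝ) ≤ 1 - 1 / (r i : ℝ) := by linarith
      positivity

theorem oneOfTwoTypes : OneOfTwoTypes Q := by
  classical
  intro I _ K _ _ _ r k hind hr hdeg h8
  choose B hB hmain using fun i => exists_change (E := K i) (M := fun _ => 1) (fun _ => rfl)
    (weights_one (hr i) (hdeg i) (h8 i))
  refine ⟨B, hB, fun Φ hΦ => ⟨{i | ¬ NoRelations (fun _ => 1) (Φ i)}, ?_⟩⟩
  refine h I K _ hind (fun i => ?_) fun i => ?_
  · unfold change
    split_ifs
    · exact isCMType_symmDiff (hB i) (hΦ i)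
    · exact hΦ i
  · unfold change
    split_ifs with h1
    · exact (hmain i (Φ i) (hΦ i)).resolve_left h1
    · exact not_not.1 h1

theorem sixteenPercentOfTypes : SixteenPercentOfTypes Q := by
  obtain ⟨g₀, h1⟩ := fam_abelian
  refine ⟨g₀, ?_⟩
  intro I _ K _ _ _ g hind hab hg0 hg
  have : ∀ i, IsGalois ℚ (K i) := fun i => (hab i).1
  exact h1 I K (fun _ _ => 1) g _ (fun i => (hab i).2) (fun _ _ => odd_one)
    (fun _ _ => rfl) hg0 hg fun Φ hΦ hno => h I K Φ hind hΦ hno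

theorem almostAllTypes : AlmostAllTypes Q := by
  obtain ⟨C, hC0, h1⟩ := fam_almostAll
  refine ⟨C, hC0, ?_⟩
  intro I _ K _ _ _ g q hind hg hq
  refine (h1 I K (fun _ _ => 1) (fun _ => 1) g q _ (fun _ _ => rfl)
    (fun _ => one_ne_zero) (fun _ _ => one_dvd _) hg hq fun Φ hΦ hno =>
      h I K Φ hind hΦ hno).trans (le_of_eq ?_)
  simp only [Nat.cast_one, one_pow, mul_one]

theorem four_rows : MostTypes Q ∧ OneOfTwoTypes Q ∧ SixteenPercentOfTypes Q ∧ AlmostAllTypes Q :=
  ⟨mostTypes h, oneOfTwoTypes h, sixteenPercentOfTypes h, almostAllTypes h⟩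

end

/-- Almost all slope types. -/
theorem almostAll_of {Q : TypeProperty} (h : WithoutRelations Q) : AlmostAll Q := by
  obtain ⟨C, hC0, h1⟩ := fam_almostAll
  refine ⟨C, hC0, ?_⟩
  intro p _ ν I _ K _ _ _ M n g q hind hMc hn hMn hg hq
  exact h1 I K M n g q _ hMc hn hMn hg hq fun Φ hΦ hno => h p ν I K M Φ hind hMc hΦ hno

theorem five_rows {Q : TypeProperty} (h : WithoutRelations Q) :
    HalfOfAll Q ∧ MostWithWeightsOne Q ∧ OneOfTwo Q ∧ SixteenPercent Q ∧ AlmostAll Q :=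
  ⟨halfOfAll h, mostWithWeightsOne h, oneOfTwo h, sixteenPercent h, almostAll_of h⟩

end Pool.Agent.K6.H79
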