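import Mathlib

set_option autoImplicit false

namespace Pool.Agent.K6.H79.Cac

open UniversalEnvelopingAlgebra

/-- the Heisenberg algebra over the field with three elements -/
@[ext] structure Heis where
  a : ZMod 3
  b : ZMod 3
  c : ZMod 3
deriving DecidableEq

namespace Heis

instance : Zero Heis := ⟨⟨0, 0, 0⟩⟩
instance : Add Heis := ⟨fun x y => ⟨x.a + y.a, x.b + y.b, x.c + y.c⟩⟩
instance : Neg Heis := ⟨fun x => ⟨-x.a, -x.b, -x.c⟩⟩
instance : SMul (ZMod 3) Heis := ⟨fun t x => ⟨t * x.a, t * x.b, t * x.c⟩⟩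

@[simp] theorem zero_a : (0 : Heis).a = 0 := rfl
@[simp] theorem zero_b : (0 : Heis).b = 0 := rfl
@[simp] theorem zero_c : (0 : Heis).c = 0 := rfl
@[simp] theorem add_a (x y : Heis) : (x + y).a = x.a + y.a := rfl
@[simp] theorem add_b (x y : Heis) : (x + y).b = x.b + y.b := rfl
@[simp] theorem add_c (x y : Heis) : (x + y).c = x.c + y.c := rfl
@[simp] theorem neg_a (x : Heis) : (-x).a = -x.a := rfl
@[simp] theorem neg_b (x : Heis) : (-x).b = -x.b := rfl
@[simp] theorem neg_c (x : Heis) : (-x).c = -x.c := rfl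
@[simp] theorem smul_a (t : ZMod 3) (x : Heis) : (t • x).a = t * x.a := rfl
@[simp] theorem smul_b (t : ZMod 3) (x : Heis) : (t • x).b = t * x.b := rfl
@[simp] theorem smul_c (t : ZMod 3) (x : Heis) : (t • x).c = t * x.c := rfl

instance : AddCommGroup Heis where
  add_assoc x y z := by ext <;> simp [add_assoc]
  zero_add x := by ext <;> simp
  add_zero x := by ext <;> simp
  nsmul := nsmulRec
  zsmul := zsmulRec
  neg_add_cancel x := by ext <;> simp
  add_comm x y := by ext <;> simp [add_comm]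

instance : Module (ZMod 3) Heis where
  one_smul x := by ext <;> simp
  mul_smul s t x := by ext <;> simp [mul_assoc]
  smul_zero t := by ext <;> simp
  smul_add t x y := by ext <;> simp [mul_add]
  add_smul s t x := by ext <;> simp [add_mul]
  zero_smul x := by ext <;> simp

instance : Bracket Heis Heis := ⟨fun x y => ⟨0, 0, x.a * y.b - x.b * y.a⟩⟩

@[simp] theorem bracket_a (x y : Heis) : ⁅x, y⁆.a = 0 := rfl
@[simp] theorem bracket_b (x y : Heis) : ⁅x, y⁆.b = 0 := rfl
@[simp] theorem bracket_c (x y : Heis) : ⁅x, y⁆.c = x.a * y.b - x.b * y.a := rfl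

instance : LieRing Heis where
  add_lie x y z := by ext <;> simp; ring
  lie_add x y z := by ext <;> simp; ring
  lie_self x := by ext <;> simp; ring
  leibniz_lie x y z := by ext <;> simp

instance : LieAlgebra (ZMod 3) Heis where
  lie_smul a x y := by ext <;> simp; ring

/-- the `p`-map -/
def pm (x : Heis) : Heis := ⟨0, 0, x.c ^ 3⟩

@[simp] theorem pm_a (x : Heis) : (pm x).a = 0 := rfl
@[simp] theorem pm_b (x : Heis) : (pm x).b = 0 := rfl
@[simp] theorem pm_c (x : Heis) : (pm x).c = x.c ^ 3 := rfl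

theorem pm_smul (a : ZMod 3) (x : Heis) : pm (a • x) = a ^ 3 • pm x := by
  ext <;> simp [mul_pow]

theorem lie_lie (x y z : Heis) : ⁅x, ⁅y, z⁆⁆ = 0 := by ext <;> simp

theorem pm_lie (x y : Heis) : ⁅pm x, y⁆ = 0 := by ext <;> simp

theorem pm_ad (x y : Heis) : (LieAlgebra.ad (ZMod 3) Heis x ^ 3) y = ⁅pm x, y⁆ := by
  rw [pm_lie, pow_succ, pow_succ, pow_one]
  simp only [Module.End.mul_apply, LieAlgebra.ad_apply]
  rw [lie_lie]

theorem pm_add (x y : Heis) : pm (x + y) = pm x + pm y := by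
  ext
  · simp
  · simp
  · simp only [pm_c, add_c]
    have : ∀ a b : ZMod 3, (a + b) ^ 3 = a ^ 3 + b ^ 3 := by decide
    exact this _ _

end Heis

open Heis

abbrev U : Type := UniversalEnvelopingAlgebra (ZMod 3) Heis

theorem three_U {A : Type*} [Ring A] [Algebra (ZMod 3) A] (a : A) : (3 : ℕ) • a = 0 := by
  have h : ((3 : ℕ) : ZMod 3) = 0 := by decide
  rw [← Nat.cast_smul_eq_nsmul (ZMod 3), h, zero_smul]

theorem three_Z {A : Type*} [Ring A] [Algebra (ZMod 3) A] (a : A) : (3 : ℤ) • a = 0 := by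
  have h := three_U a
  rw [← natCast_zsmul] at h
  exact_mod_cast h

theorem cube_add {A : Type*} [Ring A] [Algebra (ZMod 3) A] (a b : A)
    (h1 : a * (a * b - b * a) = (a * b - b * a) * a)
    (h2 : b * (a * b - b * a) = (a * b - b * a) * b) :
    (a + b) ^ 3 - a ^ 3 - b ^ 3 = 0 := by
  have e : (a + b) ^ 3 - a ^ 3 - b ^ 3 = (3 : ℕ) • (a * b * a) + (3 : ℕ) • (b * a * b)
      + (a * (a * b - b * a) - (a * b - b * a) * a)
      - (b * (a * b - b * a) - (a * b - b * a) * b) := by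
    noncomm_ring
  rw [e, three_U, three_U, h1, h2]
  simp

attribute [local instance 100] LieRing.ofAssociativeRing

theorem pm_U (x y : Heis) :
    ι (ZMod 3) (pm (x + y)) - ι (ZMod 3) (pm x) - ι (ZMod 3) (pm y)
      = (ι (ZMod 3) x + ι (ZMod 3) y) ^ 3 - ι (ZMod 3) x ^ 3 - ι (ZMod 3) y ^ 3 := by
  rw [pm_add, map_add]
  have hc : ι (ZMod 3) x * ι (ZMod 3) y - ι (ZMod 3) y * ι (ZMod 3) x = ι (ZMod 3) ⁅x, y⁆ := by
    rw [LieHom.map_lie, LieRing.of_associative_ring_bracket]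
  have hcomm : ∀ z : Heis, ι (ZMod 3) z * ι (ZMod 3) ⁅x, y⁆ = ι (ZMod 3) ⁅x, y⁆ * ι (ZMod 3) z := by
    intro z
    have h := LieHom.map_lie (ι (ZMod 3)) z ⁅x, y⁆
    rw [Heis.lie_lie, map_zero, LieRing.of_associative_ring_bracket] at h
    exact (sub_eq_zero.1 h.symm)
  rw [cube_add (ι (ZMod 3) x) (ι (ZMod 3) y) (by rw [hc]; exact hcomm x) (by rw [hc]; exact hcomm y)]
  abel

/-- the restricted enveloping algebra -/
abbrev u : Type := RingQuot (fun a b : U => ∃ x : Heis, a = ι (ZMod 3) x ^ 3 ∧ b = ι (ZMod 3) (pm x))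

/-- the quotient map -/
noncomputable def q : U →ₐ[ZMod 3] u := RingQuot.mkAlgHom (ZMod 3) _

/-- the map from the Lie algebra to its restricted enveloping algebra -/
noncomputable def j (x : Heis) : u := q (ι (ZMod 3) x)

theorem j_cube (x : Heis) : j x ^ 3 = j (pm x) := by
  rw [j, j, ← map_pow q]
  exact RingQuot.mkAlgHom_rel (ZMod 3) ⟨x, rfl, rfl⟩

theorem j_comm (x y : Heis) : j x * j y - j y * j x = j ⁅x, y⁆ := by
  rw [j, j, j, ← map_mul q, ← map_mul q, ← map_sub q, LieHom.map_lie,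
    LieRing.of_associative_ring_bracket]

theorem j_zero : j 0 = 0 := by simp [j]

noncomputable def X : u := j ⟨1, 0, 0⟩
noncomputable def Y : u := j ⟨0, 1, 0⟩
noncomputable def Z : u := j ⟨0, 0, 1⟩

theorem X_cube : X ^ 3 = 0 := by
  rw [X, j_cube, ← j_zero]; congr 1
theorem Y_cube : Y ^ 3 = 0 := by
  rw [Y, j_cube, ← j_zero]; congr 1
theorem Z_cube : Z ^ 3 = Z := by
  rw [Z, j_cube]; congr 1
theorem XY : X * Y - Y * X = Z := by
  rw [X, Y, Z, j_comm]; congr 1
theorem XZ : X * Z - Z * X = 0 := by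
  rw [X, Z, j_comm, ← j_zero]; congr 1
theorem YZ : Y * Z - Z * Y = 0 := by
  rw [Y, Z, j_comm, ← j_zero]; congr 1

/-- the central idempotent -/
noncomputable def e : u := -(Z ^ 2 + Z)

theorem Ze : Z * e = e := by
  rw [e, mul_neg, mul_add, ← pow_succ', Z_cube, ← pow_two, add_comm]

theorem eZ : e * Z = e := by
  rw [e, neg_mul, add_mul, ← pow_succ, Z_cube, ← pow_two, add_comm]

theorem three (a : u) : (3 : ℤ) • a = 0 := three_Z a

theorem ee : e * e = e := by
  nth_rw 1 [e]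
  rw [neg_mul, add_mul, pow_two, mul_assoc, Ze, Ze]
  have h := three e
  have h2 : -(e + e) = e - (3 : ℤ) • e := by abel
  rw [h2, h, sub_zero]

theorem Xe : X * e = e * X := by
  have h : X * Z = Z * X := sub_eq_zero.1 XZ
  rw [e, mul_neg, neg_mul, mul_add, add_mul, pow_two, ← mul_assoc, h, mul_assoc, h, mul_assoc]

theorem Ye : Y * e = e * Y := by
  have h : Y * Z = Z * Y := sub_eq_zero.1 YZ
  rw [e, mul_neg, neg_mul, mul_add, add_mul, pow_two, ← mul_assoc, h, mul_assoc, h, mul_assoc]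

noncomputable def x : u := X * e
noncomputable def y : u := Y * e

theorem ex : e * x = x := by rw [x, Xe, ← mul_assoc, ee]
theorem xe : x * e = x := by rw [x, mul_assoc, ee]
theorem ey : e * y = y := by rw [y, Ye, ← mul_assoc, ee]
theorem ye : y * e = y := by rw [y, mul_assoc, ee]

theorem x3 : x * x * x = 0 := by
  have h : x * x * x = X ^ 3 * e := by
    have h1 : x * x = X * X * e := by
      rw [x, mul_assoc X e, ← mul_assoc e X, ← Xe, mul_assoc X e, ee, ← mul_assoc]
    rw [h1, x, mul_assoc (X * X) e, ← mul_assoc e X, ← Xe, mul_assoc X e, ee, ← mul_assoc, pow_succ,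
      pow_two]
  rw [h, X_cube, zero_mul]

theorem y3 : y * y * y = 0 := by
  have h : y * y * y = Y ^ 3 * e := by
    have h1 : y * y = Y * Y * e := by
      rw [y, mul_assoc Y e, ← mul_assoc e Y, ← Ye, mul_assoc Y e, ee, ← mul_assoc]
    rw [h1, y, mul_assoc (Y * Y) e, ← mul_assoc e Y, ← Ye, mul_assoc Y e, ee, ← mul_assoc, pow_succ,
      pow_two]
  rw [h, Y_cube, zero_mul]

theorem xy : x * y = y * x + e := by
  have h1 : x * y = X * Y * e := by
    rw [x, y, mul_assoc X e, ← mul_assoc e Y, ← Ye, mul_assoc Y e, ee, ← mul_assoc]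
  have h2 : y * x = Y * X * e := by
    rw [x, y, mul_assoc Y e, ← mul_assoc e X, ← Xe, mul_assoc X e, ee, ← mul_assoc]
  rw [h1, h2]
  have h3 : X * Y = Y * X + Z := by rw [← XY]; abel
  rw [h3, add_mul, Ze]

/-- the projection -/
noncomputable def P : u := e - y * x - y * y * x * x

theorem xP : x * P = 0 := by
  have h1 : x * (y * x) = y * x * x + x := by
    rw [← mul_assoc, xy, add_mul, ex]
  have h2 : x * (y * y * x * x) = (2 : ℤ) • (y * x * x) := by
    have : x * (y * y) = y * y * x + (2 : ℤ) • y := by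
      rw [← mul_assoc, xy, add_mul, ey, mul_assoc, xy, mul_add, ye]
      rw [mul_assoc]; abel
    rw [mul_assoc (y * y), ← mul_assoc x (y * y), this, add_mul]
    have h4 : y * y * x * (x * x) = y * y * (x * x * x) := by
      simp only [mul_assoc]
    rw [h4, x3, mul_zero, zero_add, smul_mul_assoc, mul_assoc]
  have h3 : x * P = -((3 : ℤ) • (y * x * x)) := by
    rw [P, mul_sub, mul_sub, xe, h1, h2]; abel
  rw [h3, three, neg_zero]

theorem Py : P * y = 0 := by
  have h1 : y * x * y = y * y * x + y := by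
    rw [mul_assoc, xy, mul_add, ye, mul_assoc]
  have h2 : y * y * x * x * y = (2 : ℤ) • (y * y * x) := by
    have : x * x * y = y * x * x + (2 : ℤ) • x := by
      rw [mul_assoc, xy, mul_add, xe, ← mul_assoc, xy, add_mul, ex]; abel
    rw [mul_assoc (y * y), mul_assoc (y * y), this, mul_add]
    have h4 : y * y * (y * x * x) = y * y * y * (x * x) := by
      simp only [mul_assoc]
    rw [h4, y3, zero_mul, zero_add, mul_smul_comm]
  have h3 : P * y = -((3 : ℤ) • (y * y * x)) := by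
    rw [P, sub_mul, sub_mul, ey, h1, h2]; abel
  rw [h3, three, neg_zero]

theorem eP : e * P = P := by
  rw [P, mul_sub, mul_sub, ee]
  simp only [← mul_assoc, ey]

theorem Pe : P * e = P := by
  rw [P, sub_mul, sub_mul, ee]
  simp only [mul_assoc, xe]

theorem PP : P * P = P := by
  nth_rw 1 [P]
  rw [sub_mul, sub_mul, eP, mul_assoc y x, xP, mul_assoc (y * y * x) x, xP]
  simp

theorem PxyP : P * x * (y * P) = P := by
  have : P * x * (y * P) = P * (x * y) * P := by simp only [mul_assoc]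
  rw [this, xy, mul_add, ← mul_assoc, Py, zero_mul, zero_add, Pe, PP]

/-- the matrix units -/
noncomputable def E : Fin 2 → Fin 2 → u
  | 0, 0 => P
  | 0, 1 => P * x
  | 1, 0 => y * P
  | 1, 1 => y * P * x

theorem E_mul (i k l m : Fin 2) : E i k * E l m = if k = l then E i m else 0 := by
  have hPyP : P * (y * P) = 0 := by rw [← mul_assoc, Py, zero_mul]
  have hPxP : P * x * P = 0 := by rw [mul_assoc, xP, mul_zero]
  have hPP' : ∀ a, P * (P * a) = P * a := fun a => by rw [← mul_assoc, PP]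
  fin_cases i <;> fin_cases k <;> fin_cases l <;> fin_cases m <;>
    simp only [E, Fin.zero_eta, Fin.mk_one, Fin.isValue, if_true, zero_ne_one, one_ne_zero, if_false]
  · exact PP
  · rw [← mul_assoc, PP]
  · exact hPyP
  · rw [← mul_assoc, hPyP, zero_mul]
  · exact hPxP
  · rw [← mul_assoc, hPxP, zero_mul]
  · exact PxyP
  · rw [← mul_assoc, PxyP]
  · rw [mul_assoc, PP]
  · rw [mul_assoc, ← mul_assoc P, PP, mul_assoc]
  · rw [mul_assoc, hPyP, mul_zero]
  · rw [mul_assoc, ← mul_assoc P, hPyP, zero_mul, mul_zero]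
  · rw [mul_assoc, mul_assoc, xP]; simp
  · rw [mul_assoc, mul_assoc, ← mul_assoc x, xP]; simp
  · rw [mul_assoc y, mul_assoc y, PxyP]
  · have h : y * P * x * (y * P * x) = y * (P * x * (y * P)) * x := by simp only [mul_assoc]
    rw [h, PxyP]

/-- the representation of the Heisenberg algebra by three by three matrices -/
def rho0 (v : Heis) : Matrix (Fin 3) (Fin 3) (ZMod 3) :=
  !![v.c, v.a, 0; v.b, v.c, 2 * v.a; 0, v.b, v.c]

noncomputable def rho1 : Heis →ₗ⁅ZMod 3⁆ Matrix (Fin 3) (Fin 3) (ZMod 3) where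
  toFun := rho0
  map_add' v w := by
    ext i j; fin_cases i <;> fin_cases j <;> simp [rho0, mul_add]
  map_smul' t v := by
    ext i j; fin_cases i <;> fin_cases j <;> simp [rho0, mul_left_comm]
  map_lie' := by
    intro v w
    rw [LieRing.of_associative_ring_bracket]
    have h3 : (3 : ZMod 3) = 0 := by decide
    ext i j; fin_cases i <;> fin_cases j <;>
      simp [rho0, Matrix.mul_apply, Fin.sum_univ_three] <;>
      first
      | ring1
      | linear_combination (v.a * w.b - v.b * w.a) * h3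

theorem rho_cube : ∀ a b c : ZMod 3, rho0 ⟨a, b, c⟩ ^ 3 = rho0 (pm ⟨a, b, c⟩) := by
  decide +kernel

noncomputable def rhoU : U →ₐ[ZMod 3] Matrix (Fin 3) (Fin 3) (ZMod 3) :=
  UniversalEnvelopingAlgebra.lift (ZMod 3) rho1

theorem rhoU_ι (v : Heis) : rhoU (ι (ZMod 3) v) = rho0 v :=
  UniversalEnvelopingAlgebra.lift_ι_apply (ZMod 3) rho1 v

noncomputable def rho : u →ₐ[ZMod 3] Matrix (Fin 3) (Fin 3) (ZMod 3) :=
  RingQuot.liftAlgHom (ZMod 3) ⟨rhoU, by
    rintro a b ⟨v, rfl, rfl⟩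
    rw [map_pow, rhoU_ι, rhoU_ι]
    exact rho_cube v.a v.b v.c⟩

theorem rho_j (v : Heis) : rho (j v) = rho0 v := by
  rw [rho, j, q, RingQuot.liftAlgHom_mkAlgHom_apply, rhoU_ι]

theorem rho_P : rho P = !![1, 0, 0; 0, 0, 0; 0, 0, 0] := by
  have hX : rho X = rho0 ⟨1, 0, 0⟩ := rho_j _
  have hY : rho Y = rho0 ⟨0, 1, 0⟩ := rho_j _
  have hZ : rho Z = rho0 ⟨0, 0, 1⟩ := rho_j _
  have he : rho e = 1 := by
    rw [e, map_neg, map_add, map_pow, hZ]
    decide +kernel
  have hx : rho x = rho0 ⟨1, 0, 0⟩ := by rw [x, map_mul, he, mul_one, hX]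
  have hy : rho y = rho0 ⟨0, 1, 0⟩ := by rw [y, map_mul, he, mul_one, hY]
  rw [P, map_sub, map_sub, map_mul, map_mul, map_mul, map_mul, hx, hy, he]
  decide +kernel

theorem P_ne : P ≠ 0 := by
  intro h
  have h1 := rho_P
  rw [h, map_zero] at h1
  have h2 := congrFun (congrFun h1 0) 0
  simp at h2

/-- the homomorphism from two by two matrices -/
noncomputable def phi (M : Matrix (Fin 2) (Fin 2) (ZMod 3)) : u := ∑ i, ∑ k, M i k • E i k

theorem phi_mul (M N : Matrix (Fin 2) (Fin 2) (ZMod 3)) : phi (M * N) = phi M * phi N := by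
  simp only [phi, Fin.sum_univ_two, Matrix.mul_apply, mul_add, add_mul, smul_mul_assoc,
    mul_smul_comm, E_mul]
  simp only [Fin.isValue, if_true, zero_ne_one, one_ne_zero, if_false, smul_zero, add_zero,
    zero_add, add_smul, smul_add, smul_smul]
  simp only [mul_comm (M _ _)]
  abel

noncomputable def Phi : Matrix (Fin 2) (Fin 2) (ZMod 3) →ₙₐ[ZMod 3] u where
  toFun := phi
  map_smul' t M := by
    simp only [phi, Matrix.smul_apply, Finset.smul_sum, smul_smul, smul_eq_mul, MonoidHom.id_apply]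
  map_zero' := by simp [phi]
  map_add' M N := by
    simp only [phi, Matrix.add_apply, add_smul, Finset.sum_add_distrib]
  map_mul' := phi_mul

noncomputable def R : NonUnitalSubalgebra (ZMod 3) u := NonUnitalAlgHom.range Phi

theorem R_elim {r : u} (h : r ∈ R) : ∃ M, Phi M = r := NonUnitalAlgHom.mem_range _ |>.1 h

theorem pow26 : ∀ M : Matrix (Fin 2) (Fin 2) (ZMod 3), M ^ 26 = M ^ 2 := by
  have h : ∀ a b c d : ZMod 3, (!![a, b; c, d] : Matrix (Fin 2) (Fin 2) (ZMod 3)) ^ 26 = !![a, b; c, d] ^ 2 := by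
    decide +kernel
  intro M
  rw [Matrix.eta_fin_two M]
  exact h _ _ _ _

theorem Phi_pow (M : Matrix (Fin 2) (Fin 2) (ZMod 3)) (n : ℕ) : Phi (M ^ (n + 1)) = Phi M ^ (n + 1) := by
  induction n with
  | zero => simp
  | succ n ih => rw [pow_succ, map_mul, ih, ← pow_succ]

theorem PI : ∃ m : ℕ, ∃ φ : FreeAlgebra (ZMod 3) (Fin m), φ ≠ 0 ∧
    ∀ r : Fin m → u, (∀ i, r i ∈ R) → FreeAlgebra.lift (ZMod 3) r φ = 0 := by
  refine ⟨1, FreeAlgebra.ι (ZMod 3) 0 ^ 26 - FreeAlgebra.ι (ZMod 3) 0 ^ 2, ?_, ?_⟩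
  · intro h
    have h1 := congrArg (FreeAlgebra.lift (ZMod 3) (fun _ : Fin 1 => (Polynomial.X : Polynomial (ZMod 3)))) h
    rw [map_sub, map_pow, map_pow, FreeAlgebra.lift_ι_apply, map_zero] at h1
    have h2 := congrArg (fun f => Polynomial.coeff f 2) h1
    simp [Polynomial.coeff_X_pow] at h2
  · intro r hr
    obtain ⟨M, hM⟩ := R_elim (hr 0)
    rw [map_sub, map_pow, map_pow, FreeAlgebra.lift_ι_apply, ← hM, ← Phi_pow M 25, ← Phi_pow M 1,
      pow26, sub_self]

open Equiv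

abbrev Mat := Matrix (Fin 2) (Fin 2) (ZMod 3)

def bb : Fin 4 → Mat := fun i => Matrix.single (finProdFinEquiv.symm i : Fin 2 × Fin 2).1 (finProdFinEquiv.symm i : Fin 2 × Fin 2).2 1

theorem s4_basis : ∑ σ : Perm (Fin 4), Perm.sign σ • (List.ofFn fun i => bb (σ i)).prod = 0 := by
  decide +kernel

noncomputable def S4 : Mat [⋀^Fin 4]→ₗ[ZMod 3] Mat :=
  MultilinearMap.alternatization (MultilinearMap.mkPiAlgebraFin (ZMod 3) 4 Mat)

theorem S4_apply (A : Fin 4 → Mat) : S4 A = ∑ σ : Perm (Fin 4), Perm.sign σ • (List.ofFn fun i => A (σ i)).prod := by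
  rw [S4, MultilinearMap.alternatization_apply]
  rfl

noncomputable def B : Module.Basis (Fin 4) (ZMod 3) Mat :=
  (Matrix.stdBasis (ZMod 3) (Fin 2) (Fin 2)).reindex finProdFinEquiv

theorem B_eq (i : Fin 4) : B i = bb i := by
  rw [B, Module.Basis.reindex_apply, bb, Matrix.stdBasis_eq_single]

theorem S4_zero : S4 = 0 := by
  refine Module.Basis.ext_alternating B ?_
  intro v hv
  let τ : Perm (Fin 4) := Equiv.ofBijective v (Finite.injective_iff_bijective.1 hv)
  have h : (fun i => B (v i)) = (fun i => B i) ∘ τ := rfl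
  rw [h, AlternatingMap.map_perm]
  have h2 : S4 (fun i => B i) = 0 := by
    rw [S4_apply]
    simp only [B_eq]
    exact s4_basis
  rw [h2, smul_zero, AlternatingMap.zero_apply]

theorem s4_mat (A : Fin 4 → Mat) : ∑ σ : Perm (Fin 4), ((Perm.sign σ : ℤˣ) : ℤ) • (List.ofFn fun i => A (σ i)).prod = 0 := by
  have h := S4_apply A
  rw [S4_zero, AlternatingMap.zero_apply] at h
  rw [h]
  rfl

theorem s4_u (r : Fin (2 * 2) → u) (hr : ∀ i, r i ∈ R) :
    (∑ σ : Perm (Fin (2 * 2)), ((Perm.sign σ : ℤˣ) : ℤ) • (List.ofFn fun i => r (σ i)).prod) ^ 1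
      = 0 := by
  choose M hM using fun i => R_elim (hr i)
  have h : ∀ σ : Perm (Fin 4), (List.ofFn fun i => r (σ i)).prod =
      Phi ((List.ofFn fun i => M (σ i)).prod) := by
    intro σ
    simp only [List.ofFn_succ, List.ofFn_zero, List.prod_cons, List.prod_nil, mul_one, map_mul, hM]
  rw [pow_one]
  have h1 : (∑ σ : Perm (Fin (2 * 2)), ((Perm.sign σ : ℤˣ) : ℤ) • (List.ofFn fun i => r (σ i)).prod)
      = Phi (∑ σ : Perm (Fin 4), ((Perm.sign σ : ℤˣ) : ℤ) • (List.ofFn fun i => M (σ i)).prod) := by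
    rw [map_sum]
    refine Finset.sum_congr rfl fun σ _ => ?_
    rw [map_zsmul, ← h σ]
  rw [h1, s4_mat, map_zero]

theorem E_mem (i k : Fin 2) : E i k ∈ R := by
  refine (NonUnitalAlgHom.mem_range _).2 ⟨Matrix.single i k 1, ?_⟩
  show phi _ = _
  rw [phi, Finset.sum_eq_single i, Finset.sum_eq_single k]
  · simp
  · intro b _ hb; simp [Matrix.single_apply, hb.symm]
  · simp
  · intro b _ hb
    refine Finset.sum_eq_zero fun c _ => ?_
    simp [Matrix.single_apply, hb.symm]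
  · simp

theorem s2_u : ¬ ∃ t : ℕ, 1 ≤ t ∧ ∀ r : Fin (2 * 1) → u, (∀ i, r i ∈ R) →
    (∑ σ : Perm (Fin (2 * 1)), ((Perm.sign σ : ℤˣ) : ℤ) • (List.ofFn fun i => r (σ i)).prod) ^ t
      = 0 := by
  rintro ⟨t, ht, h⟩
  have h1 := h ![E 0 1, E 1 0] (by
    intro i
    fin_cases i
    · exact E_mem 0 1
    · exact E_mem 1 0)
  have hu : (Finset.univ : Finset (Perm (Fin (2 * 1)))) = {1, swap 0 1} := by decide
  have hs : (∑ σ : Perm (Fin (2 * 1)), ((Perm.sign σ : ℤˣ) : ℤ) •
      (List.ofFn fun i => (![E 0 1, E 1 0] : Fin (2 * 1) → u) (σ i)).prod) = E 0 0 - E 1 1 := by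
    rw [hu, Finset.sum_insert (by decide), Finset.sum_singleton]
    have h01 : Perm.sign (swap (0 : Fin (2 * 1)) 1) = -1 := Perm.sign_swap (by decide)
    rw [h01, Perm.sign_one]
    simp only [Nat.reduceMul, List.ofFn_succ, List.ofFn_zero, List.prod_cons, List.prod_nil,
      mul_one, Perm.one_apply]
    have e1 : E 0 1 * E 1 0 = E 0 0 := by rw [E_mul]; rfl
    have e2 : E 1 0 * E 0 1 = E 1 1 := by rw [E_mul]; rfl
    show ((1 : ℤˣ) : ℤ) • (E 0 1 * E 1 0) + ((-1 : ℤˣ) : ℤ) • (E 1 0 * E 0 1) = _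
    rw [e1, e2]
    simp [sub_eq_add_neg]
  rw [hs] at h1
  have hk : ∀ t : ℕ, E 0 0 * (E 0 0 - E 1 1) ^ t = E 0 0 := by
    intro t
    induction t with
    | zero => simp
    | succ t ih =>
      rw [pow_succ, ← mul_assoc, ih, mul_sub, E_mul, E_mul]
      simp
  have h2 := hk t
  rw [h1, mul_zero] at h2
  exact P_ne h2.symm

end Pool.Agent.K6.H79.Cac
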